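import Mathlib

/-! Twisting a resolvent by a projection with bounded commutator. -/

set_option linter.unusedSectionVars false

noncomputable section

open scoped InnerProductSpace

namespace Pool.Agent.Lib.ALG91

variable {K : Type} [NormedAddCommGroup K] [InnerProductSpace ℝ K] [CompleteSpace K]

/-- coercive operators are invertible inside every closed subalgebra -/
theorem inv_coer {A : Subalgebra ℝ (K →L[ℝ] K)} (hA : IsClosed (A : Set (K →L[ℝ] K)))
    {Z : K →L[ℝ] K} (hZ : Z ∈ A) {c : ℝ} (hc : 0 < c) (h : ∀ η, c * ‖η‖ ^ 2 ≤ ⟪Z η, η⟫_ℝ) :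
    ∃ Y ∈ A, Y * Z = 1 ∧ Z * Y = 1 := by
  have : CompleteSpace A := hA.completeSpace_coe
  set M := ‖Z‖ + c with hM
  have hM0 : 0 < M := by positivity
  have hq : c / M ≤ 1 := (div_le_one hM0).2 (le_add_of_nonneg_left (norm_nonneg _))
  have hq0 : 0 < c / M := div_pos hc hM0
  have h1 : ‖(1 : K →L[ℝ] K) - (c / M ^ 2) • Z‖ ≤ √(1 - (c / M) ^ 2) :=
    ContinuousLinearMap.opNorm_le_bound _ (Real.sqrt_nonneg _) fun η => by
      refine abs_le_of_sq_le_sq' ?_ (by positivity) |>.2
      have h2 : ‖Z η‖ ≤ M * ‖η‖ := Z.le_of_opNorm_le (le_add_of_nonneg_right hc.le) η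
      have h3 : ‖Z η‖ ^ 2 ≤ (M * ‖η‖) ^ 2 := pow_le_pow_left₀ (norm_nonneg _) h2 2
      have h4 : 0 < c / M ^ 2 := by positivity
      rw [mul_pow, Real.sq_sqrt (by nlinarith)]
      change ‖η - (c / M ^ 2) • Z η‖ ^ 2 ≤ _
      rw [norm_sub_sq_real, inner_smul_right, norm_smul, mul_pow, Real.norm_eq_abs, sq_abs,
        real_inner_comm]
      have h5 := mul_le_mul_of_nonneg_left (h η) h4.le
      have h6 := mul_le_mul_of_nonneg_left h3 (sq_nonneg (c / M ^ 2))
      have h7 : (c / M ^ 2) ^ 2 * (M * ‖η‖) ^ 2 = (c / M) ^ 2 * ‖η‖ ^ 2 := by field_simp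
      have h8 : c / M ^ 2 * (c * ‖η‖ ^ 2) = (c / M) ^ 2 * ‖η‖ ^ 2 := by field_simp
      nlinarith
  have h2 : ‖(1 : A) - (c / M ^ 2) • (⟨Z, hZ⟩ : A)‖ < 1 :=
    h1.trans_lt ((Real.sqrt_lt' one_pos).2 (by nlinarith))
  let u := Units.oneSub _ h2
  have hu : ((u : A) : K →L[ℝ] K) = (c / M ^ 2) • Z := by simp [u]
  refine ⟨(c / M ^ 2) • ((u⁻¹ : Aˣ) : A), A.smul_mem (SetLike.coe_mem _) _, ?_, ?_⟩
  · rw [smul_mul_assoc, ← mul_smul_comm, ← hu, ← MulMemClass.coe_mul, u.inv_mul]
    rfl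
  · rw [mul_smul_comm, ← smul_mul_assoc, ← hu, ← MulMemClass.coe_mul, u.mul_inv]
    rfl

theorem inner_star (T : K →L[ℝ] K) (ξ η : K) : ⟪star T ξ, η⟫_ℝ = ⟪ξ, T η⟫_ℝ :=
  T.adjoint_inner_left η ξ

theorem inner_sa {T : K →L[ℝ] K} (h : star T = T) (ξ η : K) : ⟪T ξ, η⟫_ℝ = ⟪ξ, T η⟫_ℝ := by
  rw [← inner_star, h]

/-- operators bounded below together with their adjoints are invertible -/
theorem inv_below {A : Subalgebra ℝ (K →L[ℝ] K)} (hA : IsClosed (A : Set (K →L[ℝ] K)))
    {T : K →L[ℝ] K} (hT : T ∈ A) (hT' : star T ∈ A) {c : ℝ} (hc : 0 < c)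
    (h : ∀ η, ‖η‖ ≤ c * ‖T η‖) (h' : ∀ η, ‖η‖ ≤ c * ‖star T η‖) :
    ∃ Y ∈ A, Y * T = 1 ∧ T * Y = 1 := by
  have key : ∀ {S : K →L[ℝ] K}, (∀ η, ‖η‖ ≤ c * ‖S η‖) →
      ∀ η, (c ^ 2)⁻¹ * ‖η‖ ^ 2 ≤ ⟪(star S * S) η, η⟫_ℝ := fun {S} h η => by
    rw [mul_apply_eq_comp, inner_star, real_inner_self_eq_norm_sq,
      inv_mul_le_iff₀ (by positivity), ← mul_pow]
    exact pow_le_pow_left₀ (norm_nonneg _) (h η) 2
  obtain ⟨Y, hY, h1, -⟩ := inv_coer hA (A.mul_mem hT' hT) (by positivity) (key h)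
  obtain ⟨Y', -, -, h2⟩ := inv_coer hA (A.mul_mem (star_star T ▸ hT :) hT') (by positivity)
    (key h')
  rw [star_star] at h2
  rw [← mul_assoc] at h1
  rw [mul_assoc] at h2
  exact ⟨_, A.mul_mem hY hT', h1, by rw [left_inv_eq_right_inv h1 h2, h2]⟩

/-- `R = (D + w)⁻¹`, `P` a projection commuting with `w`, `C = [D, P]` -/
structure Tw (R w P C : K →L[ℝ] K) : Prop where
  R_sa : star R = R
  R_inj : Function.Injective R
  w_sa : star w = w
  ww : w * w = 1
  wR : w * R + R * w = R * R + R * R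
  P_sa : star P = P
  PP : P * P = P
  Pw : P * w = w * P
  PR : P * R - R * P = R * C * R

/-- the bounded perturbation making `D` commute with `P` -/
def pb (P C : K →L[ℝ] K) : K →L[ℝ] K := (P + P - 1) * C

namespace Tw

variable {R w P C Y : K →L[ℝ] K} (h : Tw R w P C)
include h

theorem cancel {X X' : K →L[ℝ] K} (e : R * X * R = R * X' * R) : X = X' := by
  have k : ∀ {X : K →L[ℝ] K}, R * X = 0 → X = 0 := fun {X} e =>
    ContinuousLinearMap.ext fun η => h.R_inj (by simpa using congrArg (fun T => T η) e)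
  have h1 : (X - X') * R = 0 := k (by rw [sub_mul, mul_sub, ← mul_assoc, ← mul_assoc, e, sub_self])
  have h2 : star (X - X') = 0 := k (by simpa [h.R_sa] using congrArg star h1)
  exact sub_eq_zero.1 (star_eq_zero.1 h2)

theorem C_skew : star C = -C := h.cancel (by
  have := congrArg star h.PR
  simp only [star_sub, star_mul, h.R_sa, h.P_sa] at this
  rw [mul_assoc, ← this, mul_neg, neg_mul, ← h.PR, neg_sub])

theorem PR' : P * R = R * (P + C * R) := by
  rw [mul_add, ← mul_assoc, ← h.PR, add_sub_cancel]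

theorem RP' : R * P = (P - R * C) * R := by rw [sub_mul, ← h.PR, sub_sub_cancel]

theorem PC : P * C + C * P = C := h.cancel (by
  calc R * (P * C + C * P) * R = R * P * (C * R) + R * C * (P * R) := by noncomm_ring
    _ = P * (R * C * R) + R * C * R * P := by rw [h.RP', h.PR']; noncomm_ring
    _ = (P * P) * R - R * (P * P) := by rw [← h.PR]; noncomm_ring
    _ = _ := by rw [h.PP, h.PR])

theorem PCP : P * C * P = 0 := by
  have : P * (P * C + C * P) = P * C := by rw [h.PC]
  rwa [mul_add, ← mul_assoc, h.PP, add_eq_left, ← mul_assoc] at this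

theorem wC : w * C + C * w = 0 := h.cancel (by
  have h1 : R * w = (R + R - w) * R := by rw [sub_mul, add_mul, ← h.wR]; abel
  have h2 : w * R = R * (R + R - w) := by rw [mul_sub, mul_add, ← h.wR]; abel
  calc R * (w * C + C * w) * R = R * w * (C * R) + R * C * (w * R) := by noncomm_ring
    _ = (R + R - w) * (R * C * R) + R * C * R * (R + R - w) := by rw [h1, h2]; noncomm_ring
    _ = P * (R * R + R * R) - (R * R + R * R) * P + (w * R * P - w * P * R) +
        (R * (P * w) - P * (R * w)) := by rw [← h.PR]; noncomm_ring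
    _ = (P * w - w * P) * R + R * (P * w - w * P) := by rw [← h.wR]; noncomm_ring
    _ = _ := by rw [h.Pw]; simp)

theorem B_sa : star (pb P C) = pb P C := by
  simp only [pb, star_mul, star_sub, star_add, star_one, h.C_skew, h.P_sa]
  calc _ = C - (C * P + C * P) := by noncomm_ring
    _ = (P * C + C * P) + (P * C + C * P) - C - (C * P + C * P) := by rw [h.PC]; abel
    _ = _ := by noncomm_ring

theorem wB : w * pb P C + pb P C * w = 0 := by
  calc _ = (w * P + w * P - w) * C + (P + P - 1) * (C * w) := by rw [pb]; noncomm_ring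
    _ = (P + P - 1) * (w * C + C * w) := by rw [← h.Pw]; noncomm_ring
    _ = 0 := by rw [h.wC, mul_zero]

theorem BP : pb P C * P = -(C * P) := by
  calc _ = P * C * P + P * C * P - C * P := by rw [pb]; noncomm_ring
    _ = _ := by rw [h.PCP]; abel

theorem PB : P * pb P C = P * C := by
  calc _ = (P * P + P * P - P) * C := by rw [pb]; noncomm_ring
    _ = _ := by rw [h.PP, add_sub_cancel_right]

omit h in
theorem inner_wR (h1 : star R = R) (h2 : star w = w) (h3 : w * R + R * w = R * R + R * R) (η : K) :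
    ⟪η, w (R η)⟫_ℝ = ‖R η‖ ^ 2 := by
  have := congrArg (fun T : K →L[ℝ] K => ⟪η, T η⟫_ℝ) h3
  simp only [add_apply, mul_apply_eq_comp, inner_add_right] at this
  rw [← inner_sa h1 η (w η), ← inner_sa h2 (R η), real_inner_comm η, ← inner_sa h1 η (R η),
    real_inner_self_eq_norm_sq] at this
  linarith

theorem inner_Bw (u : K) : ⟪pb P C u, w u⟫_ℝ = 0 := by
  have := congrArg (fun T : K →L[ℝ] K => ⟪u, T u⟫_ℝ) h.wB
  simp only [add_apply, mul_apply_eq_comp, inner_add_right,
    zero_apply, inner_zero_right] at this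
  rw [← inner_sa h.w_sa, real_inner_comm, ← inner_sa h.B_sa] at this
  linarith

theorem norm_w (u : K) : ‖w u‖ = ‖u‖ := by
  rw [← sq_eq_sq₀ (norm_nonneg _) (norm_nonneg _), ← real_inner_self_eq_norm_sq,
    ← real_inner_self_eq_norm_sq, inner_sa h.w_sa, ← mul_apply_eq_comp, h.ww]
  rfl

/-- `1 + B R` is invertible -/
theorem exists_inv {A : Subalgebra ℝ (K →L[ℝ] K)} (hA : IsClosed (A : Set (K →L[ℝ] K)))
    (hR : R ∈ A) (hP : P ∈ A) (hC : C ∈ A) :
    ∃ Y ∈ A, Y * (1 + pb P C * R) = 1 ∧ (1 + pb P C * R) * Y = 1 := by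
  have hB : pb P C ∈ A := A.mul_mem (A.sub_mem (A.add_mem hP hP) A.one_mem) hC
  have hs : star (1 + pb P C * R) = 1 + R * pb P C := by
    rw [star_add, star_one, star_mul, h.R_sa, h.B_sa]
  have k : ∀ {a b : ℝ}, 0 ≤ b → a ^ 2 ≤ b * a → a ≤ b := fun {a b} hb e => by
    by_contra h
    nlinarith [not_le.1 h]
  refine inv_below hA (A.add_mem A.one_mem (A.mul_mem hB hR))
    (hs ▸ A.add_mem A.one_mem (A.mul_mem hR hB)) (c := 1 + ‖pb P C‖) (by positivity)
    (fun η => ?_) fun ξ => ?_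
  · change _ ≤ _ * ‖η + pb P C (R η)‖
    have h1 : ‖R η‖ ≤ ‖η + pb P C (R η)‖ := k (norm_nonneg _) (by
      have := real_inner_le_norm (η + pb P C (R η)) (w (R η))
      rwa [inner_add_left, h.inner_Bw, add_zero, inner_wR h.R_sa h.w_sa h.wR, h.norm_w] at this)
    have h2 := norm_sub_le (η + pb P C (R η)) (pb P C (R η))
    rw [add_sub_cancel_right] at h2
    nlinarith [(pb P C).le_opNorm (R η), norm_nonneg (pb P C)]
  · rw [hs]
    change _ ≤ _ * ‖ξ + R (pb P C ξ)‖
    set ζ := ξ + R (pb P C ξ) with hζ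
    set u := R (pb P C ξ) with hu
    have h1 : ‖u‖ ≤ ‖pb P C ζ‖ := k (norm_nonneg _) (by
      have := real_inner_le_norm (pb P C ζ) (w u)
      rwa [hζ, map_add, inner_add_left, h.inner_Bw, add_zero, hu, inner_wR h.R_sa h.w_sa h.wR,
        h.norm_w, ← map_add] at this)
    have h2 := norm_sub_le ζ u
    rw [hζ, add_sub_cancel_right, ← hζ] at h2
    nlinarith [(pb P C).le_opNorm ζ]

variable (h1 : Y * (1 + pb P C * R) = 1) (h2 : (1 + pb P C * R) * Y = 1)
include h1 h2

omit h h2 in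
theorem RY_mul : R * Y * (1 + pb P C * R) = R := by rw [mul_assoc, h1, mul_one]

omit h h1 in
theorem mul_RY : (1 + R * pb P C) * (R * Y) = R := by
  calc _ = R * ((1 + pb P C * R) * Y) := by noncomm_ring
    _ = R := by rw [h2, mul_one]

omit h1 in
theorem left_inv : star Y * (1 + R * pb P C) = 1 := by
  simpa [h.R_sa, h.B_sa] using congrArg star h2

omit h1 in
theorem RY_sa : star (R * Y) = R * Y := by
  rw [star_mul, h.R_sa]
  conv_lhs => rw [← mul_RY h2, ← mul_assoc, h.left_inv h2, one_mul]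

theorem w_RY : w * (R * Y) + R * Y * w = R * Y * (R * Y) + R * Y * (R * Y) := by
  have a := RY_mul h1
  have b := mul_RY h2
  set S := R * Y
  have : (1 + R * pb P C) * (w * S + S * w) * (1 + pb P C * R) =
      (1 + R * pb P C) * (S * S + S * S) * (1 + pb P C * R) := by
    calc _ = (1 + R * pb P C) * w * (S * (1 + pb P C * R)) +
          (1 + R * pb P C) * S * w * (1 + pb P C * R) := by noncomm_ring
      _ = w * R + R * w + R * (w * pb P C + pb P C * w) * R := by rw [a, b]; noncomm_ring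
      _ = R * R + R * R := by rw [h.wB, h.wR, mul_zero, zero_mul, add_zero]
      _ = (1 + R * pb P C) * S * (S * (1 + pb P C * R)) +
          (1 + R * pb P C) * S * (S * (1 + pb P C * R)) := by rw [a, b]
      _ = _ := by noncomm_ring
  have := congrArg (fun T => star Y * T * Y) this
  simpa only [← mul_assoc, h.left_inv h2, one_mul, mul_assoc _ _ Y, h2, mul_one] using this

omit h2 in
theorem YP : Y * P * (1 + pb P C * R) = P + C * R := by
  have : P * (1 + pb P C * R) = (1 + pb P C * R) * (P + C * R) := by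
    calc _ = P + P * pb P C * R := by noncomm_ring
      _ = P + (P * C + C * P) * R + -(C * P) * R := by rw [h.PB]; noncomm_ring
      _ = P + C * R + pb P C * (P * R) := by rw [h.PC, ← h.BP, mul_assoc]
      _ = _ := by rw [h.PR']; noncomm_ring
  rw [mul_assoc, this, ← mul_assoc, h1, one_mul]

theorem YP' : Y * P = (P + C * R) * Y := by rw [← h.YP h1, mul_assoc, h2, mul_one]

theorem P_RY : P * (R * Y) = R * Y * P := by
  rw [← mul_assoc, h.PR', mul_assoc, ← h.YP' h1 h2, mul_assoc]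

omit h2 in
/-- the twisted resolvent on sections -/
theorem RY_apply {u η : K} (hu : P u = u) (e : R (η + C u) = u) : R (Y η) = u := by
  have a : pb P C u = -C u := by
    simpa [hu] using congrArg (fun T : K →L[ℝ] K => T u) h.BP
  have b := congrArg (fun T : K →L[ℝ] K => T (η + C u)) (RY_mul h1)
  simpa [-map_add, e, a] using b

omit h h1 in
theorem Y_eq (η : K) : Y η = η - pb P C (R (Y η)) :=
  eq_sub_of_add_eq (congrArg (fun T : K →L[ℝ] K => T η) h2)

/-- the Lichnerowicz inequality passes to the twisted operator -/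
theorem lich {ι : Type} [Fintype ι] {N dP : ι → K →L[ℝ] K} {χ : K →L[ℝ] K} {κ : ℝ}
    (hN : ∀ j, N j * (P + C * R) = P * N j + dP j * R)
    (hfl : ∀ u, P u = u → ‖C u‖ ^ 2 ≤ ∑ j, ‖dP j u‖ ^ 2)
    (hL : ∀ η, ∑ j, ‖N j η‖ ^ 2 + κ * ‖R η‖ ^ 2 ≤ ‖η - w (R η)‖ ^ 2 + ‖χ (R η)‖ ^ 2)
    {η : K} (hη : P η = η) :
    κ * ‖R (Y η)‖ ^ 2 ≤ ‖η - w (R (Y η))‖ ^ 2 + ‖χ (R (Y η))‖ ^ 2 := by
  have hu : P (R (Y η)) = R (Y η) := by
    simpa [hη] using congrArg (fun T : K →L[ℝ] K => T η) (h.P_RY h1 h2)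
  have hY : P (Y η) + C (R (Y η)) = Y η := by
    simpa [hη] using congrArg (fun T : K →L[ℝ] K => T η) (h.YP' h1 h2).symm
  set u := R (Y η) with hu'
  have orth : ∀ a b : K, P a = a → P b = 0 → ‖a + b‖ ^ 2 = ‖a‖ ^ 2 + ‖b‖ ^ 2 := fun a b ha hb => by
    rw [norm_add_sq_real, ← ha, inner_sa h.P_sa, hb, inner_zero_right, mul_zero, add_zero]
  have PPa : ∀ a, P (P a) = P a := fun a => congrArg (fun T : K →L[ℝ] K => T a) h.PP
  have a1 : P (C u) = 0 := by simpa [hu] using congrArg (fun T : K →L[ℝ] K => T u) h.PCP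
  have a2 : Y η = η + C u := by
    rw [Y_eq h2, sub_eq_add_neg]
    simpa [hu, neg_eq_iff_eq_neg] using congrArg (fun T : K →L[ℝ] K => T u) h.BP
  have a3 : P (w u) = w u := by simpa [hu] using congrArg (fun T : K →L[ℝ] K => T u) h.Pw
  have a4 : ∀ j, ‖dP j u‖ ^ 2 ≤ ‖N j (Y η)‖ ^ 2 := fun j => by
    have b : N j (Y η) = P (N j (Y η)) + dP j u := by
      have := congrArg (fun T : K →L[ℝ] K => T (Y η)) (hN j)
      simp only [mul_apply_eq_comp, add_apply] at this
      rwa [← hu', hY] at this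
    have c : P (dP j u) = 0 := by
      have := congrArg P b
      rwa [map_add, PPa, left_eq_add] at this
    rw [b, orth _ _ (PPa _) c]
    exact le_add_of_nonneg_left (sq_nonneg _)
  have a5 := hL (Y η)
  rw [← hu', a2, add_sub_right_comm, orth _ _ (by rw [map_sub, hη, a3]) a1, ← a2] at a5
  linarith [hfl u hu, Finset.sum_le_sum fun j (_ : j ∈ Finset.univ) => a4 j]

end Tw

/-- flatness: the Clifford square of the second fundamental form has no curvature term -/
theorem flat {ι : Type} [Fintype ι] [DecidableEq ι] {γ a : ι → K →L[ℝ] K}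
    (h1 : ∀ j, star (γ j) = -γ j) (h2 : ∀ j k, γ j * γ k + γ k * γ j = if j = k then -2 else 0)
    (h3 : ∀ j k, γ j * a k = a k * γ j) (h4 : ∀ j k, star (a j) * a k = star (a k) * a j) (u : K) :
    ‖(∑ j, γ j * a j) u‖ ^ 2 = ∑ j, ‖a j u‖ ^ 2 := by
  have k : ∀ T : K →L[ℝ] K, ‖T u‖ ^ 2 = ⟪(star T * T) u, u⟫_ℝ := fun T => by
    rw [mul_apply_eq_comp, inner_star, real_inner_self_eq_norm_sq]
  have e1 : star (∑ j, γ j * a j) * ∑ j, γ j * a j = ∑ j, ∑ k, star (a j) * a k * -(γ j * γ k) := by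
    rw [star_sum, Finset.sum_mul_sum]
    refine Finset.sum_congr rfl fun j _ => Finset.sum_congr rfl fun k _ => ?_
    rw [star_mul, h1, h3]
    calc _ = -(star (a j) * (γ j * a k) * γ k) := by noncomm_ring
      _ = _ := by rw [h3]; noncomm_ring
  have e2 : (2 : ℝ) • ∑ j, ∑ k, star (a j) * a k * -(γ j * γ k) = (2 : ℝ) • ∑ j, star (a j) * a j := by
    rw [two_smul]
    nth_rw 2 [Finset.sum_comm]
    rw [← Finset.sum_add_distrib, Finset.smul_sum]
    refine Finset.sum_congr rfl fun j _ => ?_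
    rw [← Finset.sum_add_distrib, Finset.sum_eq_single j]
    · rw [← mul_add, ← neg_add, h2, if_pos rfl, neg_neg, mul_two, two_smul]
    · intro k _ hk
      rw [h4 k, ← mul_add, ← neg_add, h2, if_neg hk.symm, neg_zero, mul_zero]
    · simp
  rw [k, e1, smul_right_injective _ two_ne_zero e2, _root_.sum_apply, sum_inner]
  exact Finset.sum_congr rfl fun j _ => (k _).symm

theorem fred_ring {L : Type} [Ring L] (J : TwoSidedIdeal L) {e f q Y : L} (he : e * e = e)
    (hf : f * f = f) (hq : q ∈ J) (h1 : Y * (1 - (e - f) * (e - f) + q) = 1)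
    (h2 : (1 - (e - f) * (e - f) + q) * Y = 1) :
    ∃ T, T * (f * e) - e ∈ J ∧ f * e * T - f ∈ J := by
  have a : Y * e * (f * e) - e ∈ J := by
    have : Y * e * (f * e) - e = -(Y * q * e) := by
      calc _ = Y * (e - (e * e) * e + e * f * e + f * (e * e) - f * f * e) - e := by
            rw [he, he, hf]; noncomm_ring
        _ = Y * (1 - (e - f) * (e - f) + q) * e - e - Y * q * e := by noncomm_ring
        _ = _ := by rw [h1]; noncomm_ring
    rw [this]
    exact J.neg_mem (J.mul_mem_right _ _ (J.mul_mem_left _ _ hq))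
  have b : f * e * (f * Y) - f ∈ J := by
    have : f * e * (f * Y) - f = -(f * q * Y) := by
      calc _ = (f - f * (e * e) + f * e * f + f * f * e - f * (f * f)) * Y - f := by
            rw [he, hf, hf]; noncomm_ring
        _ = f * ((1 - (e - f) * (e - f) + q) * Y) - f - f * q * Y := by noncomm_ring
        _ = _ := by rw [h2]; noncomm_ring
    rw [this]
    exact J.neg_mem (J.mul_mem_right _ _ (J.mul_mem_left _ _ hq))
  refine ⟨Y * e * f, by rwa [mul_assoc, ← mul_assoc f, hf], ?_⟩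
  have : f * e * (Y * e * f) - f = -(f * e * (Y * e) * (f * e * (f * Y) - f)) +
      f * e * (Y * e * (f * e) - e) * (f * Y) + (f * e * (f * Y) - f) := by
    calc _ = f * e * (Y * e * f) - f + f * (e - e * e) * (f * Y) := by rw [he]; noncomm_ring
      _ = _ := by noncomm_ring
  rw [this]
  exact J.add_mem (J.add_mem (J.neg_mem (J.mul_mem_left _ _ b))
    (J.mul_mem_right _ _ (J.mul_mem_left _ _ a))) b

/-- the projection on the negative spinors -/
def neg (w : K →L[ℝ] K) : K →L[ℝ] K := (1 / 2 : ℝ) • (1 - w)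

theorem neg_idem {w : K →L[ℝ] K} (h : w * w = 1) : neg w * neg w = neg w := by
  rw [neg, smul_mul_smul_comm, sub_mul, mul_sub, mul_sub, h]
  simp only [one_mul, mul_one]
  module

theorem graph_idem {w S : K →L[ℝ] K} (h : w * w = 1) (h' : w * S + S * w = S * S + S * S) :
    (neg w + S) * (neg w + S) = neg w + S := by
  have : S * S = (1 / 2 : ℝ) • (w * S + S * w) := by rw [h']; module
  rw [add_mul, mul_add, mul_add, neg_idem h, this, neg]
  simp only [smul_mul_assoc, mul_smul_comm, sub_mul, mul_sub, one_mul, mul_one]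
  module

theorem neg_comm {w P : K →L[ℝ] K} (h : P * w = w * P) : P * neg w = neg w * P := by
  simp only [neg, smul_mul_assoc, mul_smul_comm, sub_mul, mul_sub, one_mul, mul_one, h]

theorem mul_idem {L : Type} [Ring L] {P e : L} (hP : P * P = P) (he : e * e = e)
    (h : P * e = e * P) : P * e * (P * e) = P * e := by
  rw [mul_assoc, ← mul_assoc e, ← h, mul_assoc P, he, ← mul_assoc, hP]

/-- the graph projection and the projection on the negative spinors form a Fredholm pair -/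
theorem fred {A : Subalgebra ℝ (K →L[ℝ] K)} (hA : IsClosed (A : Set (K →L[ℝ] K)))
    (J : TwoSidedIdeal A) {S w P χ : K →L[ℝ] K} {κ : ℝ} (hκ : 0 < κ) (S_sa : star S = S)
    (w_sa : star w = w) (ww : w * w = 1) (wS : w * S + S * w = S * S + S * S) (P_sa : star P = P)
    (PP : P * P = P) (Pw : P * w = w * P) (PS : P * S = S * P) (χ_sa : star χ = χ)
    (hL : ∀ η, P η = η → κ * ‖S η‖ ^ 2 ≤ ‖η - w (S η)‖ ^ 2 + ‖χ (S η)‖ ^ 2)
    {s p c e f : A} (hs : s.1 = S) (hp : p.1 = P) (hc : c.1 = χ) (hJ : c * s ∈ J)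
    (he : e.1 = P * (neg w + S)) (hf : f.1 = P * neg w) :
    e * e = e ∧ f * f = f ∧ ∃ T : A, T * (f * e) - e ∈ J ∧ f * e * T - f ∈ J := by
  have ee : e * e = e := Subtype.ext (by
    rw [MulMemClass.coe_mul, he]
    exact mul_idem PP (graph_idem ww wS) (by rw [mul_add, add_mul, neg_comm Pw, PS]))
  have ff : f * f = f := Subtype.ext (by
    rw [MulMemClass.coe_mul, hf]
    exact mul_idem PP (neg_idem ww) (neg_comm Pw))
  have hZ : ((1 - (e - f) * (e - f) + p * s * c * (c * s) * p : A) : K →L[ℝ] K) =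
      1 - star (S * P) * (S * P) + star (χ * (S * P)) * (χ * (S * P)) := by
    push_cast
    rw [he, hf, hs, hp, hc, ← mul_sub, add_sub_cancel_left]
    simp only [star_mul, S_sa, P_sa, χ_sa]
    rw [← PS]
    simp only [mul_assoc, PS]
  obtain ⟨Y, hY, h1, h2⟩ := inv_coer hA (1 - (e - f) * (e - f) + p * s * c * (c * s) * p : A).2
    (c := κ / (1 + κ)) (by positivity) fun η => by
      have PPa : P (P η) = P η := congrArg (fun T : K →L[ℝ] K => T η) PP
      have a1 : ‖η‖ ^ 2 = ‖P η‖ ^ 2 + ‖η - P η‖ ^ 2 := by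
        conv_lhs => rw [← add_sub_cancel (P η) η]
        rw [norm_add_sq_real, inner_sa P_sa, map_sub, PPa, sub_self, inner_zero_right, mul_zero,
          add_zero]
      have a2 : ‖w (S (P η))‖ ^ 2 = ‖S (P η)‖ ^ 2 := by
        rw [← real_inner_self_eq_norm_sq, ← real_inner_self_eq_norm_sq, inner_sa w_sa,
          ← mul_apply_eq_comp w w, ww]
        rfl
      have a3 := hL _ PPa
      have a4 := sq_nonneg ‖P η - w (S (P η))‖
      rw [norm_sub_sq_real, Tw.inner_wR S_sa w_sa wS, a2] at a3 a4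
      rw [hZ]
      simp only [add_apply, sub_apply, mul_apply_eq_comp (star _), inner_add_left, inner_sub_left,
        inner_star, real_inner_self_eq_norm_sq, one_apply_eq_self]
      simp only [mul_apply_eq_comp]
      rw [div_mul_eq_mul_div, div_le_iff₀ (by positivity)]
      nlinarith [sq_nonneg ‖η - P η‖, mul_nonneg hκ.le (sq_nonneg ‖χ (S (P η))‖)]
  exact ⟨ee, ff, fred_ring J (Y := ⟨Y, hY⟩) ee ff
    (J.mul_mem_right _ _ (J.mul_mem_left _ _ hJ)) (Subtype.ext h1) (Subtype.ext h2)⟩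

end Pool.Agent.Lib.ALG91
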